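import Pool.Agent.StabCay.Main

/-!
# Almost all Cayley graphs of finite groups are stable

We prove that the proportion `p(G)` of inverse-closed subsets `S` of a finite group `G` for which
the Cayley graph `Cay(G,S)` is stable tends to `1` as `|G|` tends to infinity, over all finite
groups.
-/

namespace Pool.Agent.Results.MP_439c3d_co.StabilityAlmostAll

open Finset Pool.Agent.StabCay

universe u

/-- Adjacency of the Cayley graph `Cay(G,S)`: `x` is adjacent to `y` iff `y * x⁻¹ ∈ S`. -/
def cayAdj {G : Type u} [Group G] (S : Set G) (x y : G) : Prop := y * x⁻¹ ∈ S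

/-- Adjacency of the standard double cover `D(Γ) = Γ × K₂` of the graph `Γ` with vertex type `V`
and adjacency `adj`: its vertices are the pairs in `V × Bool`, and `(u,i)` is adjacent to `(v,j)`
iff `u` is adjacent to `v` and `i ≠ j`. -/
def dblAdj {V : Type u} (adj : V → V → Prop) (p q : V × Bool) : Prop :=
  adj p.1 q.1 ∧ p.2 ≠ q.2

/-- The graph is stable: every automorphism of its double cover is a pair of an automorphism `σ`
of the graph and an automorphism (a permutation of the two vertices) `π` of `K₂`, acting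
coordinatewise. -/
def Stable {V : Type u} (adj : V → V → Prop) : Prop :=
  ∀ φ : dblAdj adj ≃r dblAdj adj, ∃ (σ : adj ≃r adj) (π : Equiv.Perm Bool),
    ∀ v i, φ (v, i) = (σ v, π i)

/-- `p(G)`: the number of inverse-closed subsets `S` of `G` with `Cay(G,S)` stable, divided by the
number of inverse-closed subsets of `G`. -/
noncomputable def stableProportion (G : Type u) [Group G] : ℝ :=
  (Nat.card {S : Set G // (∀ g ∈ S, g⁻¹ ∈ S) ∧ Stable (cayAdj S)} : ℝ) /
    (Nat.card {S : Set G // ∀ g ∈ S, g⁻¹ ∈ S} : ℝ)

/-- the inverse-closed set of a class function -/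
def setOf' {G : Type u} [Group G] (f : Cl G → Bool) : Set G := {g | f (cl g) = true}

lemma setOf'_inv {G : Type u} [Group G] (f : Cl G → Bool) : ∀ g ∈ setOf' f, g⁻¹ ∈ setOf' f := by
  intro g hg
  change f (cl g⁻¹) = true
  rw [cl_inv]
  exact hg

lemma setOf'_bijective (G : Type u) [Group G] : Function.Bijective
    (fun f : Cl G → Bool => (⟨setOf' f, setOf'_inv f⟩ : {S : Set G // ∀ g ∈ S, g⁻¹ ∈ S})) := by
  classical
  constructor
  · intro f f' hff
    have h1 : setOf' f = setOf' f' := congrArg Subtype.val hff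
    funext c
    obtain ⟨g, rfl⟩ := cl_surjective c
    have h2 : (f (cl g) = true) ↔ (f' (cl g) = true) := by
      have : g ∈ setOf' f ↔ g ∈ setOf' f' := by rw [h1]
      exact this
    exact Bool.eq_iff_iff.mpr h2
  · rintro ⟨S, hS⟩
    refine ⟨fun c => decide (∃ g, cl g = c ∧ g ∈ S), ?_⟩
    apply Subtype.ext
    ext g
    change decide (∃ g', cl g' = cl g ∧ g' ∈ S) = true ↔ g ∈ S
    rw [decide_eq_true_eq]
    constructor
    · rintro ⟨g', hg', hgS⟩
      rcases cl_eq_iff.mp hg' with h | h
      · rw [← h]; exact hgS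
      · have := hS g' hgS
        rw [h, inv_inv] at this
        exact this
    · intro hg
      exact ⟨g, rfl, hg⟩

/-- rigid class functions give stable Cayley graphs -/
lemma stable_of_goodF {G : Type u} [Group G] [Finite G] (f : Cl G → Bool) (hf : GoodF f) :
    Stable (cayAdj (setOf' f)) := by
  intro φ
  have key : ∀ x y : G, ∀ i j : Bool, dblAdj (cayAdj (setOf' f)) (φ (x, i)) (φ (y, j)) ↔
      dblAdj (cayAdj (setOf' f)) (x, i) (y, j) := fun x y i j => φ.map_rel_iff
  obtain ⟨i, hi⟩ := hf (fun x => φ (x, false)) (fun y => φ (y, true))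
    (by
      intro x x' h
      have := φ.injective h
      exact congrArg Prod.fst this)
    (by
      intro x y
      have h := key x y false true
      simp only [dblAdj, cayAdj, setOf', Set.mem_ofPred_eq] at h
      rw [Bool.eq_iff_iff, Bool.and_eq_true]
      constructor
      · intro h1
        have h2 := h.mpr ⟨h1, by simp⟩
        refine ⟨?_, h2.1⟩
        have h3 := h2.2
        revert h3
        cases (φ (x, false)).2 <;> cases (φ (y, true)).2 <;> simp
      · rintro ⟨h1, h2⟩
        refine (h.mp ⟨h2, ?_⟩).1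
        revert h1
        cases (φ (x, false)).2 <;> cases (φ (y, true)).2 <;> simp)
  have hinj : Function.Injective (fun x : G => (φ (x, false)).1) := by
    intro x x' h
    have h2 : φ (x, false) = φ (x', false) := Prod.ext h (by rw [(hi x).2.1, (hi x').2.1])
    exact congrArg Prod.fst (φ.injective h2)
  have hbij := Finite.injective_iff_bijective.mp hinj
  have hxf : ∀ x, φ (x, false) = ((φ (x, false)).1, i) := fun x => Prod.ext rfl (hi x).2.1
  have hxt : ∀ x, φ (x, true) = ((φ (x, false)).1, !i) :=
    fun x => Prod.ext (hi x).1.symm (hi x).2.2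
  refine ⟨⟨Equiv.ofBijective _ hbij, ?_⟩, ⟨fun j => xor j i, fun j => xor j i, ?_, ?_⟩, ?_⟩
  · intro x y
    have h := key x y false true
    rw [hxf x, hxt y] at h
    simp only [dblAdj] at h
    simp only [Equiv.ofBijective_apply]
    constructor
    · intro h1
      exact (h.mp ⟨h1, by cases i <;> simp⟩).1
    · intro h1
      exact (h.mpr ⟨h1, by simp⟩).1
  · intro j; cases i <;> cases j <;> rfl
  · intro j; cases i <;> cases j <;> rfl
  · intro v j
    cases j
    · rw [hxf v]
      cases i <;> rfl
    · rw [hxt v]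
      cases i <;> rfl

/-- **The proportion of stable Cayley graphs tends to one**: for every `ε > 0` there is `r₀` such
that every finite group `G` of order at least `r₀` satisfies `p(G) ≥ 1 - ε`. -/
theorem result : ∀ ε : ℝ, 0 < ε → ∃ r₀ : ℕ, ∀ (G : Type u) [Group G] [Finite G],
    r₀ ≤ Nat.card G → 1 - ε ≤ stableProportion G := by
  classical
  intro ε hε
  obtain ⟨r₁, h2, hr₁⟩ := notGood_large.{u}
  obtain ⟨r₂, hr₂⟩ := exists_nat_gt (1 / ε)
  refine ⟨max r₁ r₂, ?_⟩
  intro G _ _ hG
  letI : Fintype G := Fintype.ofFinite G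
  have hn : Nat.card G = Fintype.card G := Nat.card_eq_fintype_card
  have hG1 : r₁ ≤ Fintype.card G := by rw [← hn]; exact (le_max_left _ _).trans hG
  have hG2 : r₂ ≤ Fintype.card G := by rw [← hn]; exact (le_max_right _ _).trans hG
  have hmain := hr₁ G hG1
  have hnpos : (0 : ℝ) < Fintype.card G := by
    have : 0 < Fintype.card G := Fintype.card_pos
    exact_mod_cast this
  -- denominators
  have hden : Nat.card {S : Set G // ∀ g ∈ S, g⁻¹ ∈ S} = 2 ^ Fintype.card (Cl G) := by
    rw [← Nat.card_congr (Equiv.ofBijective _ (setOf'_bijective G)), Nat.card_eq_fintype_card,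
      Fintype.card_fun, Fintype.card_bool]
  -- numerators
  have hfin : Finite {S : Set G // (∀ g ∈ S, g⁻¹ ∈ S) ∧ Stable (cayAdj S)} := inferInstance
  have hnum : (univ.filter (fun f : Cl G → Bool => GoodF f)).card ≤
      Nat.card {S : Set G // (∀ g ∈ S, g⁻¹ ∈ S) ∧ Stable (cayAdj S)} := by
    have hinj : Function.Injective (fun f : {f : Cl G → Bool // GoodF f} =>
        (⟨setOf' f.1, setOf'_inv f.1, stable_of_goodF f.1 f.2⟩ :
          {S : Set G // (∀ g ∈ S, g⁻¹ ∈ S) ∧ Stable (cayAdj S)})) := by
      intro f f' hff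
      have h1 : setOf' f.1 = setOf' f'.1 := congrArg Subtype.val hff
      apply Subtype.ext
      apply (setOf'_bijective G).1
      exact Subtype.ext h1
    have h3 := Nat.card_le_card_of_injective _ hinj
    rw [Nat.card_eq_fintype_card, Fintype.card_subtype] at h3
    exact h3
  have hsplit : (univ.filter (fun f : Cl G → Bool => GoodF f)).card +
      (univ.filter (fun f : Cl G → Bool => ¬ GoodF f)).card = 2 ^ Fintype.card (Cl G) := by
    rw [Finset.card_filter_add_card_filter_not, Finset.card_univ, Fintype.card_fun,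
      Fintype.card_bool]
  unfold stableProportion
  rw [hden]
  set N := Fintype.card (Cl G) with hN
  set a := (univ.filter (fun f : Cl G → Bool => GoodF f)).card with ha
  set c := (univ.filter (fun f : Cl G → Bool => ¬ GoodF f)).card with hc
  set s := Nat.card {S : Set G // (∀ g ∈ S, g⁻¹ ∈ S) ∧ Stable (cayAdj S)} with hs
  have hpow : (0 : ℝ) < ((2 ^ N : ℕ) : ℝ) := by positivity
  rw [le_div_iff₀ hpow]
  have e1 : (a : ℝ) ≤ s := by exact_mod_cast hnum
  have e2 : (a : ℝ) + c = ((2 ^ N : ℕ) : ℝ) := by exact_mod_cast hsplit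
  have e3 : (c : ℝ) * Fintype.card G ≤ ((2 ^ N : ℕ) : ℝ) := by exact_mod_cast hmain
  have e4 : (1 : ℝ) ≤ ε * Fintype.card G := by
    have h5 : (r₂ : ℝ) ≤ Fintype.card G := by exact_mod_cast hG2
    have h6 : 1 / ε < Fintype.card G := hr₂.trans_le h5
    rw [div_lt_iff₀ hε] at h6
    linarith
  have e5 : (c : ℝ) ≤ ε * ((2 ^ N : ℕ) : ℝ) := by
    have hc0 : (0 : ℝ) ≤ c := by positivity
    have h7 : (c : ℝ) ≤ ε * (c * Fintype.card G) := by
      calc (c : ℝ) = c * 1 := by ring
        _ ≤ c * (ε * Fintype.card G) := by gcongr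
        _ = ε * (c * Fintype.card G) := by ring
    exact h7.trans (by gcongr)
  nlinarith

end Pool.Agent.Results.MP_439c3d_co.StabilityAlmostAll
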